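import Pool.Agent.H95.ESP.Final

/-!
# Almost all elliptic curves are separated from a given one by a prime `p ≤ C (log N N')^α`, `α > 1`
-/

set_option autoImplicit false

namespace Pool.Agent.Results.MP_3ddf05_nt.AlmostAllSeparated

/-- `4a³ + 27b²`; the discriminant of `y² = x³ + a x + b` is `-16` times this number -/
def D (a b : ℤ) : ℤ := 4 * a ^ 3 + 27 * b ^ 2

/-- `y² = x³ + a x + b` is an elliptic curve, and no prime `p` has `p⁴ ∣ a` and `p⁶ ∣ b`.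
Every elliptic curve over `ℚ` is isomorphic to exactly one of these. -/
def IsModel (a b : ℤ) : Prop :=
  D a b ≠ 0 ∧ ∀ p : ℕ, p.Prime → ¬ ((p : ℤ) ^ 4 ∣ a ∧ (p : ℤ) ^ 6 ∣ b)

/-- the number of points of `y² = x³ + a x + b` over `ZMod p`, with the point at infinity -/
noncomputable def pts (a b : ℤ) (p : ℕ) : ℕ :=
  Nat.card {v : ZMod p × ZMod p // v.2 ^ 2 = v.1 ^ 3 + (a : ZMod p) * v.1 + (b : ZMod p)} + 1

/-- the product of the primes `p ≥ 5` dividing `4a³ + 27b²`, which for `IsModel a b` are the primes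
`p ≥ 5` of bad reduction; this number divides the conductor -/
def R (a b : ℤ) : ℕ := ∏ p ∈ (D a b).natAbs.primeFactors.filter (fun p => 5 ≤ p), p

/-- the elliptic curves of height `max (4|a|³, 27b²) ≤ X` -/
def Fam (X : ℝ) : Set (ℤ × ℤ) :=
  {q | IsModel q.1 q.2 ∧ 4 * |(q.1 : ℝ)| ^ 3 ≤ X ∧ 27 * (q.2 : ℝ) ^ 2 ≤ X}

/-- a prime `5 ≤ p ≤ C (log R(a,b) R(a',b'))^α` of good reduction for both curves separates them -/
def Sep (C α : ℝ) (a b a' b' : ℤ) : Prop :=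
  ∃ p : ℕ, p.Prime ∧ 5 ≤ p ∧ (p : ℝ) ≤ C * (Real.log ((R a b : ℝ) * R a' b')) ^ α ∧
    ¬ (p : ℤ) ∣ D a b ∧ ¬ (p : ℤ) ∣ D a' b' ∧ pts a b p ≠ pts a' b' p

/-- Let `α > 1`, `C > 0`, `ε > 0`. There are `δ > 0` and `K` such that for every `X ≥ 4` and every
elliptic curve `(a, b)` with `log R(a,b) ≤ X^δ`, all but at most `K X^(5/6 - (1 - 1/α)/4 + ε)` of the
(at least `c X^(5/6)`) elliptic curves of height `≤ X` are separated from it by a prime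
`5 ≤ p ≤ C (log R(a,b) R(a',b'))^α` of good reduction for both. -/
theorem result :
    (∀ X : ℝ, (Fam X).Finite) ∧
    (∃ c : ℝ, 0 < c ∧ ∀ X : ℝ, 4 ≤ X → c * X ^ (5 / 6 : ℝ) ≤ ((Fam X).ncard : ℝ)) ∧
    ∀ α C ε : ℝ, 1 < α → 0 < C → 0 < ε → ∃ δ K : ℝ, 0 < δ ∧ ∀ X : ℝ, 4 ≤ X → ∀ a b : ℤ, IsModel a b →
      Real.log (R a b) ≤ X ^ δ →
      (({q | q ∈ Fam X ∧ ¬ Sep C α a b q.1 q.2} : Set (ℤ × ℤ)).ncard : ℝ) ≤
        K * X ^ (5 / 6 - (1 - 1 / α) / 4 + ε) :=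
  ESP.final

end Pool.Agent.Results.MP_3ddf05_nt.AlmostAllSeparated
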