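import Pool.Agent.H95.ESL.Final

/-!
# The bound `C (log N N')²` cannot be replaced by `c log (N N') log log (N N')`
-/

set_option autoImplicit false

namespace Pool.Agent.Results.MP_3ddf05_nt.LowerBound

/-- `4a³ + 27b²`; the discriminant of `y² = x³ + a x + b` is `-16` times this number -/
def D (a b : ℤ) : ℤ := 4 * a ^ 3 + 27 * b ^ 2

/-- `y² = x³ + a x + b` is an elliptic curve, and no prime `p` has `p⁴ ∣ a` and `p⁶ ∣ b`.
Every elliptic curve over `ℚ` is isomorphic to exactly one of these. -/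
def IsModel (a b : ℤ) : Prop :=
  D a b ≠ 0 ∧ ∀ p : ℕ, p.Prime → ¬ ((p : ℤ) ^ 4 ∣ a ∧ (p : ℤ) ^ 6 ∣ b)

/-- the number of points of `y² = x³ + a x + b` over `ZMod p`, with the point at infinity -/
noncomputable def pts (a b : ℤ) (p : ℕ) : ℕ :=
  Nat.card {v : ZMod p × ZMod p // v.2 ^ 2 = v.1 ^ 3 + (a : ZMod p) * v.1 + (b : ZMod p)} + 1

/-- `2⁸ 3⁵ ∏ p²`, the product over the primes `p ≥ 5` dividing `4a³ + 27b²`; for `IsModel a b` these are
the primes `p ≥ 5` of bad reduction, and this number is a multiple of the conductor -/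
def M (a b : ℤ) : ℕ := 2 ^ 8 * 3 ^ 5 * (∏ p ∈ (D a b).natAbs.primeFactors.filter (fun p => 5 ≤ p), p) ^ 2

/-- Let `E : y² = x³ + a x + b` be an elliptic curve over `ℚ` and `c < 1/(4 log 2)`. For infinitely many
`d ≡ 1 mod 24` the twist `E' : y² = x³ + a d² x + b d³` has a number of points different from that of `E`
modulo some prime of good reduction for both (so it is not isogenous to `E`), but the same number of points
as `E` modulo every prime `5 ≤ p ≤ c L log L` of good reduction for both, `L = log (M M')`. -/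
theorem result (a b : ℤ) (h : IsModel a b) (c : ℝ) (hc : c < 1 / (4 * Real.log 2)) (B : ℕ) :
    ∃ d : ℕ, B < d ∧ d % 24 = 1 ∧ IsModel (a * d ^ 2) (b * d ^ 3) ∧
    (∃ p : ℕ, p.Prime ∧ 5 ≤ p ∧ ¬ (p : ℤ) ∣ D a b ∧ ¬ (p : ℤ) ∣ D (a * d ^ 2) (b * d ^ 3) ∧
      pts a b p ≠ pts (a * d ^ 2) (b * d ^ 3) p) ∧
    ∀ p : ℕ, p.Prime → 5 ≤ p → (p : ℝ) ≤ c * Real.log ((M a b : ℝ) * M (a * d ^ 2) (b * d ^ 3)) *
        Real.log (Real.log ((M a b : ℝ) * M (a * d ^ 2) (b * d ^ 3))) →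
      ¬ (p : ℤ) ∣ D a b → ¬ (p : ℤ) ∣ D (a * d ^ 2) (b * d ^ 3) →
      pts a b p = pts (a * d ^ 2) (b * d ^ 3) p :=
  ESL.final a b h c hc B

end Pool.Agent.Results.MP_3ddf05_nt.LowerBound
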